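import Mathlib
import Pool.Agent.W225.CG.Geom

/-!
Boolean dimension of the convex geometries of ordered data whose far-before relations are
symmetric up to a change of the coordinate.
-/

namespace Pool.Agent.W225.CG

open Pool.Agent.H984R3.ConvDefs

/-- `P` has Boolean dimension at most `d`: there are `t ≤ d` linear orders on the ground set of `P`
(not necessarily extensions of `P`) and a Boolean function `φ` of `t` variables such that for all
distinct `x`, `y` one has `x < y` in `P` if and only if `φ` is true at the truth values of `x < y`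
in the `t` linear orders. -/
def BooleanDimLE (P : Type) [PartialOrder P] (d : ℕ) : Prop :=
  ∃ t : ℕ, t ≤ d ∧ ∃ (L : Fin t → LinearOrder P) (φ : (Fin t → Prop) → Prop),
    ∀ x y : P, x ≠ y → (x < y ↔ φ fun i => (L i).lt x y)

/-- the linear order given by a key, ties broken by an injection `e` -/
@[instance_reducible] noncomputable def keyOrder {P : Type} (e : P → ℕ) (he : Function.Injective e) (g : P → ℕ) :
    LinearOrder P :=
  LinearOrder.lift' (fun x => toLex (g x, e x)) (fun _ _ h => he (congrArg (fun z => (ofLex z).2) h))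

/-- the linear order given by a key, ties broken by the reverse of an injection `e` -/
@[instance_reducible] noncomputable def keyOrder' {P : Type} (e : P → ℕ) (he : Function.Injective e) (g : P → ℕ) :
    LinearOrder P :=
  LinearOrder.lift' (fun x => toLex (g x, OrderDual.toDual (e x)))
    (fun _ _ h => he (congrArg (fun z => (ofLex z).2) h))

theorem keyOrder_lt {P : Type} (e : P → ℕ) (he : Function.Injective e) (g : P → ℕ) (x y : P) :
    (keyOrder e he g).lt x y ↔ g x < g y ∨ (g x = g y ∧ e x < e y) := by
  change toLex (g x, e x) < toLex (g y, e y) ↔ _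
  rw [Prod.Lex.toLex_lt_toLex]

theorem keyOrder'_lt {P : Type} (e : P → ℕ) (he : Function.Injective e) (g : P → ℕ) (x y : P) :
    (keyOrder' e he g).lt x y ↔ g x < g y ∨ (g x = g y ∧ e y < e x) := by
  change toLex (g x, OrderDual.toDual (e x)) < toLex (g y, OrderDual.toDual (e y)) ↔ _
  rw [Prod.Lex.toLex_lt_toLex]
  rfl

open Classical in
/-- Boolean dimension from finitely many keys. -/
theorem booleanDimLE_of {P : Type} [PartialOrder P] [Finite P] {ι : Type} [Fintype ι]
    (g : ι → P → ℕ) (ψ : (ι → Prop) → (ι → Prop) → Prop)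
    (h : ∀ x y : P, x ≠ y → (x < y ↔ ψ (fun i => g i x < g i y) (fun i => g i x = g i y))) :
    BooleanDimLE P (2 * Fintype.card ι) := by
  have := Fintype.ofFinite P
  let e : P → ℕ := fun x => (Fintype.equivFin P x : ℕ)
  have he : Function.Injective e := fun x y h =>
    (Fintype.equivFin P).injective (Fin.ext h)
  let f : ι × Bool ≃ Fin (Fintype.card (ι × Bool)) := Fintype.equivFin _
  refine ⟨Fintype.card (ι × Bool), by rw [Fintype.card_prod, Fintype.card_bool, mul_comm],
    fun j => if (f.symm j).2 then keyOrder e he (g (f.symm j).1)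
      else keyOrder' e he (g (f.symm j).1),
    fun s => ψ (fun i => s (f (i, true)) ∧ s (f (i, false)))
      (fun i => (s (f (i, true)) ∧ ¬ s (f (i, false))) ∨ (¬ s (f (i, true)) ∧ s (f (i, false)))),
    ?_⟩
  intro x y hxy
  rw [h x y hxy]
  have hne : e x ≠ e y := fun h => hxy (he h)
  have h1 : ∀ i, (if (f.symm (f (i, true))).2 then keyOrder e he (g (f.symm (f (i, true))).1)
      else keyOrder' e he (g (f.symm (f (i, true))).1)).lt x y ↔
        (g i x < g i y ∨ (g i x = g i y ∧ e x < e y)) := by
    intro i
    rw [Equiv.symm_apply_apply, if_pos rfl, keyOrder_lt]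
  have h2 : ∀ i, (if (f.symm (f (i, false))).2 then keyOrder e he (g (f.symm (f (i, false))).1)
      else keyOrder' e he (g (f.symm (f (i, false))).1)).lt x y ↔
        (g i x < g i y ∨ (g i x = g i y ∧ e y < e x)) := by
    intro i
    rw [Equiv.symm_apply_apply, if_neg (by simp), keyOrder'_lt]
  have e1 : (fun i => g i x < g i y) = fun i =>
      (if (f.symm (f (i, true))).2 then keyOrder e he (g (f.symm (f (i, true))).1)
      else keyOrder' e he (g (f.symm (f (i, true))).1)).lt x y ∧
      (if (f.symm (f (i, false))).2 then keyOrder e he (g (f.symm (f (i, false))).1)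
      else keyOrder' e he (g (f.symm (f (i, false))).1)).lt x y := by
    funext i
    rw [eq_iff_iff, h1, h2]
    omega
  have e2 : (fun i => g i x = g i y) = fun i =>
      ((if (f.symm (f (i, true))).2 then keyOrder e he (g (f.symm (f (i, true))).1)
      else keyOrder' e he (g (f.symm (f (i, true))).1)).lt x y ∧
      ¬ (if (f.symm (f (i, false))).2 then keyOrder e he (g (f.symm (f (i, false))).1)
      else keyOrder' e he (g (f.symm (f (i, false))).1)).lt x y) ∨
      (¬ (if (f.symm (f (i, true))).2 then keyOrder e he (g (f.symm (f (i, true))).1)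
      else keyOrder' e he (g (f.symm (f (i, true))).1)).lt x y ∧
      (if (f.symm (f (i, false))).2 then keyOrder e he (g (f.symm (f (i, false))).1)
      else keyOrder' e he (g (f.symm (f (i, false))).1)).lt x y) := by
    funext i
    rw [eq_iff_iff, h1, h2]
    omega
  rw [e1, e2]

variable {I W K : Type} [LinearOrder K] (D : Data I W K)

/-- the up-set in coordinate `a` -/
def J (a : I) (A : Set (X I W)) : Set W := {v | (Sum.inr (a, v) : X I W) ∈ A}

theorem J_mono {a : I} {A B : Set (X I W)} (h : A ⊆ B) : J a A ⊆ J a B := fun _ hv => h hv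

/-- the letters in the box of a state -/
def Bt (A : Set (X I W)) : Set W := {w | (∀ a, w ∈ J a A) ∧ ∀ a u, D.ll a u w → u ∉ J a A}

/-- the letter at the wall in coordinate `a` -/
def IsWall (a : I) (A : Set (X I W)) (w : W) : Prop :=
  w ∈ J a A ∧ ∀ u, D.key a u < D.key a w → u ∉ J a A

theorem wall_unique {a : I} {A : Set (X I W)} {v w : W} (hv : IsWall D a A v)
    (hw : IsWall D a A w) : v = w := by
  apply D.inj a
  apply le_antisymm
  · by_contra hcon
    rw [not_le] at hcon
    exact hv.2 w hcon hw.1
  · by_contra hcon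
    rw [not_le] at hcon
    exact hw.2 v hcon hv.1

/-- the box letters of `A` and of `B` are adjacent if the state of `A` is above that of `B` -/
theorem bt_adj (hsym : ∀ v w a, D.ll a v w → ∃ b, D.ll b w v) {A B : Set (X I W)}
    (hAB : ∀ a, J a A ⊆ J a B) {v u : W} (hv : v ∈ Bt D A) (hu : u ∈ Bt D B) (hne : v ≠ u) :
    D.Adj v u := by
  have h1 : ∀ a, ¬ D.ll a v u := fun a h => hu.2 a v h (hAB a (hv.1 a))
  refine ⟨hne, fun a => ⟨h1 a, fun h => ?_⟩⟩
  obtain ⟨b, hb⟩ := hsym u v a h
  exact h1 b hb

open Classical in
/-- The Boolean dimension of the convex geometry is at most `4 |I| + 8`. -/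
theorem booleanDimLE [Finite W] [Nonempty W] [Fintype I]
    (hsym : ∀ v w a, D.ll a v w → ∃ b, D.ll b w v)
    (htri : ∀ u v w, D.Adj u v → D.Adj v w → D.Adj u w → False) :
    BooleanDimLE D.closed (2 * (2 * Fintype.card I + 4)) := by
  have := Fintype.ofFinite W
  let idx : W → ℕ := fun w => (Fintype.equivFin W w : ℕ)
  have hidx : Function.Injective idx := fun x y h => (Fintype.equivFin W).injective (Fin.ext h)
  have hFP : Finite (D.closed) := inferInstance
  -- the two box letters
  have hb : ∀ x : D.closed, (Bt D x.1).Nonempty → ∃ p : W × W,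
      p.1 ∈ Bt D x.1 ∧ p.2 ∈ Bt D x.1 ∧ (∀ w ∈ Bt D x.1, w = p.1 ∨ w = p.2) ∧
      idx p.1 ≤ idx p.2 := by
    intro x hx
    obtain ⟨w1, hw1, hmin⟩ := Set.exists_min_image (Bt D x.1) idx (Set.toFinite _) hx
    obtain ⟨w2, hw2, hmax⟩ := Set.exists_max_image (Bt D x.1) idx (Set.toFinite _) hx
    refine ⟨(w1, w2), hw1, hw2, ?_, hmin w2 hw2⟩
    intro w hw
    by_contra hcon
    push Not at hcon
    have h12 : w1 ≠ w2 := by
      intro h
      have h3 := hmin w hw
      have h4 := hmax w hw
      rw [← h] at h4
      exact hcon.1 (hidx (le_antisymm h4 h3))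
    have hAB : ∀ a, J a x.1 ⊆ J a x.1 := fun a => subset_rfl
    exact htri w w1 w2 (bt_adj D hsym hAB hw hw1 hcon.1) (bt_adj D hsym hAB hw1 hw2 h12)
      (bt_adj D hsym hAB hw hw2 hcon.2)
  choose! p hp1 hp2 hp3 hp4 using hb
  -- keys
  let b : Bool → D.closed → W := fun i x => if i then (p x).1 else (p x).2
  have hbmem : ∀ i x, (Bt D x.1).Nonempty → b i x ∈ Bt D x.1 := by
    intro i x hx
    cases i
    · exact hp2 x hx
    · exact hp1 x hx
  let g : (I ⊕ I) ⊕ (Bool ⊕ Bool) → D.closed → ℕ := fun i x =>
    Sum.elim (Sum.elim (fun a => (J a x.1).ncard)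
      (fun a => if ∃ w, IsWall D a x.1 w ∧ (Sum.inl w : X I W) ∈ x.1 then 1 else 0))
      (Sum.elim (fun i => if (Bt D x.1).Nonempty then idx (b i x) + 1 else 0)
        (fun i => if (Bt D x.1).Nonempty ∧ (Sum.inl (b i x) : X I W) ∈ x.1 then 1 else 0)) i
  have key : ∀ x y : D.closed, x ≤ y ↔
      (∀ a, g (Sum.inl (Sum.inl a)) x < g (Sum.inl (Sum.inl a)) y ∨
        g (Sum.inl (Sum.inl a)) x = g (Sum.inl (Sum.inl a)) y) ∧
      (∀ a, g (Sum.inl (Sum.inl a)) x = g (Sum.inl (Sum.inl a)) y →
        (g (Sum.inl (Sum.inr a)) x < g (Sum.inl (Sum.inr a)) y ∨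
          g (Sum.inl (Sum.inr a)) x = g (Sum.inl (Sum.inr a)) y)) ∧
      (∀ i, g (Sum.inr (Sum.inl i)) x = g (Sum.inr (Sum.inl i)) y →
        (g (Sum.inr (Sum.inr i)) x < g (Sum.inr (Sum.inr i)) y ∨
          g (Sum.inr (Sum.inr i)) x = g (Sum.inr (Sum.inr i)) y)) := by
    intro x y
    constructor
    · intro hxy
      refine ⟨?_, ?_, ?_⟩
      · intro a
        rw [← le_iff_lt_or_eq]
        exact Set.ncard_le_ncard (J_mono hxy) (Set.toFinite _)
      · intro a ha
        rw [← le_iff_lt_or_eq]
        have hJ : J a x.1 = J a y.1 :=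
          Set.eq_of_subset_of_ncard_le (J_mono hxy) (le_of_eq ha.symm) (Set.toFinite _)
        simp only [g, Sum.elim_inl, Sum.elim_inr]
        split_ifs with h1 h2
        · exact le_rfl
        · obtain ⟨w, hw, hwx⟩ := h1
          exact absurd ⟨w, ⟨hJ ▸ hw.1, fun u hu => hJ ▸ hw.2 u hu⟩, hxy hwx⟩ h2
        · exact Nat.zero_le _
        · exact le_rfl
      · intro i hi
        rw [← le_iff_lt_or_eq]
        simp only [g, Sum.elim_inl, Sum.elim_inr] at hi ⊢
        by_cases h1 : (Bt D x.1).Nonempty ∧ (Sum.inl (b i x) : X I W) ∈ x.1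
        · rw [if_pos h1]
          rw [if_pos h1.1] at hi
          have hy : (Bt D y.1).Nonempty := by
            by_contra hcon
            rw [if_neg hcon] at hi
            omega
          rw [if_pos hy] at hi
          have hbb : b i x = b i y := hidx (by omega)
          rw [if_pos ⟨hy, hbb ▸ hxy h1.2⟩]
        · rw [if_neg h1]
          exact Nat.zero_le _
    · rintro ⟨hg1, hg2, hg3⟩
      by_contra hxy
      by_cases h : ∃ a, ¬ J a x.1 ⊆ J a y.1
      · obtain ⟨a, ha⟩ := h
        obtain ⟨v, hv1, hv2⟩ := Set.not_subset.1 ha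
        have hsub : J a y.1 ⊆ J a x.1 := by
          intro u hu
          have : D.key a v ≤ D.key a u := by
            by_contra hcon
            rw [not_le] at hcon
            exact hv2 (y.2.1 a u v hcon.le hu)
          exact x.2.1 a v u this hv1
        have hlt : (J a y.1).ncard < (J a x.1).ncard :=
          Set.ncard_lt_ncard ⟨hsub, ha⟩ (Set.toFinite _)
        have := hg1 a
        simp only [g, Sum.elim_inl] at this
        omega
      · push Not at h
        have h2 : ∃ w, (Sum.inl w : X I W) ∈ x.1 ∧ (Sum.inl w : X I W) ∉ y.1 := by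
          by_contra hcon
          push Not at hcon
          apply hxy
          intro z hz
          rcases z with w | ⟨a, v⟩
          · exact hcon w hz
          · exact h a hz
        obtain ⟨w, hwx, hwy⟩ := h2
        have hJx : ∀ a, w ∈ J a x.1 := fun a => x.2.2.1 w hwx a
        have hJy : ∀ a, w ∈ J a y.1 := fun a => h a (hJx a)
        rcases y.2.2.2 w hwy with ⟨a, ha⟩ | hbx
        · -- the letter is at a wall
          have hJ : J a x.1 = J a y.1 := by
            refine subset_antisymm (h a) ?_
            intro u hu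
            have : D.key a w ≤ D.key a u := by
              by_contra hcon
              rw [not_le] at hcon
              exact ha u hcon hu
            exact x.2.1 a w u this (hJx a)
          have hwall : IsWall D a y.1 w := ⟨hJy a, ha⟩
          have hwall' : IsWall D a x.1 w := ⟨hJx a, fun u hu => hJ ▸ ha u hu⟩
          have h3 := hg2 a (by simp only [g, Sum.elim_inl]; rw [hJ])
          simp only [g, Sum.elim_inl, Sum.elim_inr] at h3
          rw [if_pos ⟨w, hwall', hwx⟩, if_neg] at h3
          · omega
          · rintro ⟨v, hv, hvy⟩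
            rw [wall_unique D hv hwall] at hvy
            exact hwy hvy
        · -- the letter is in the box
          have hwBy : w ∈ Bt D y.1 := ⟨hJy, hbx⟩
          have hwBx : w ∈ Bt D x.1 := ⟨hJx, fun a u hu hux => hbx a u hu (h a hux)⟩
          have hnx : (Bt D x.1).Nonempty := ⟨w, hwBx⟩
          have hny : (Bt D y.1).Nonempty := ⟨w, hwBy⟩
          have hi : ∃ i, b i x = w ∧ b i y = w := by
            by_contra hcon
            push Not at hcon
            have hadj : ∀ v ∈ Bt D x.1, ∀ u ∈ Bt D y.1, v ≠ w → u ≠ w → v = u := by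
              intro v hv u hu hvw huw
              by_contra hvu
              exact htri v u w (bt_adj D hsym h hv hu hvu)
                (bt_adj D hsym (fun a => subset_rfl) hu hwBy huw)
                (bt_adj D hsym (fun a => subset_rfl) hv hwBx hvw)
            have ht := hcon true
            have hf := hcon false
            have hx3 := hp3 x hnx w hwBx
            have hy3 := hp3 y hny w hwBy
            have hx4 := hp4 x hnx
            have hy4 := hp4 y hny
            simp only [b, if_true, Bool.false_eq_true, if_false] at ht hf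
            rcases hx3 with hx3 | hx3
            · have hy1 : (p y).1 ≠ w := ht hx3.symm
              have hy2 : w = (p y).2 := hy3.resolve_left (fun h => hy1 h.symm)
              have hx2 : (p x).2 ≠ w := fun h => hf h hy2.symm
              have heq := hadj _ (hp2 x hnx) _ (hp1 y hny) hx2 hy1
              rw [← hx3] at hx4
              rw [← hy2, ← heq] at hy4
              exact hx2 (hidx (le_antisymm hy4 hx4))
            · have hy2 : (p y).2 ≠ w := hf hx3.symm
              have hy1 : w = (p y).1 := hy3.resolve_right (fun h => hy2 h.symm)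
              have hx1 : (p x).1 ≠ w := fun h => ht h hy1.symm
              have heq := hadj _ (hp1 x hnx) _ (hp2 y hny) hx1 hy2
              rw [← hx3] at hx4
              rw [← hy1, ← heq] at hy4
              exact hx1 (hidx (le_antisymm hx4 hy4))
          obtain ⟨i, hix, hiy⟩ := hi
          have h3 := hg3 i (by
            simp only [g, Sum.elim_inl, Sum.elim_inr]
            rw [if_pos hnx, if_pos hny, hix, hiy])
          simp only [g, Sum.elim_inr] at h3
          rw [if_pos ⟨hnx, hix ▸ hwx⟩, if_neg] at h3
          · omega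
          · rintro ⟨_, h4⟩
            rw [hiy] at h4
            exact hwy h4
  have hcard : Fintype.card ((I ⊕ I) ⊕ (Bool ⊕ Bool)) = 2 * Fintype.card I + 4 := by
    simp only [Fintype.card_sum, Fintype.card_bool]
    omega
  rw [← hcard]
  refine booleanDimLE_of g (fun s t => (∀ a, s (Sum.inl (Sum.inl a)) ∨ t (Sum.inl (Sum.inl a))) ∧
    (∀ a, t (Sum.inl (Sum.inl a)) → (s (Sum.inl (Sum.inr a)) ∨ t (Sum.inl (Sum.inr a)))) ∧
    (∀ i, t (Sum.inr (Sum.inl i)) → (s (Sum.inr (Sum.inr i)) ∨ t (Sum.inr (Sum.inr i))))) ?_
  intro x y hxy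
  rw [lt_iff_le_and_ne, key x y]
  simp only [and_iff_left hxy]

end Pool.Agent.W225.CG
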